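import Pool.Agent.Lib.MP_33b3f9_ag.MG.E3.Fr

/-! An integral averaging operator over the quaternion algebra. -/

set_option autoImplicit false

namespace MG.E3

open Matrix M4 M4.CL M8.E3 Polynomial

variable {σ ι : Type} [Fintype σ] [Fintype ι] [DecidableEq ι] {a b : ZM ι}

/-- An averaging operator. -/
structure Av (a b : ZM ι) where
  /-- the index set -/
  α : Type
  /-- finite -/
  fin : Fintype α
  /-- left factors -/
  p : α → ZM ι
  /-- right factors -/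
  q : α → ZM ι
  cp : ∀ i (g : RM ι), g * zr a = zr a * g → g * zr b = zr b * g → g * zr (p i) = zr (p i) * g
  cq : ∀ i (g : RM ι), g * zr a = zr a * g → g * zr b = zr b * g → g * zr (q i) = zr (q i) * g
  sym : ∀ P : ZM ι, Pᵀ = P → (∑ i, p i * P * (q i)ᵀ)ᵀ = ∑ i, p i * P * (q i)ᵀ
  ca : ∀ P : ZM ι, (∑ i, p i * P * (q i)ᵀ) * J ι ℤ * a = a * ((∑ i, p i * P * (q i)ᵀ) * J ι ℤ)
  cb : ∀ P : ZM ι, (∑ i, p i * P * (q i)ᵀ) * J ι ℤ * b = b * ((∑ i, p i * P * (q i)ᵀ) * J ι ℤ)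
  pos : ∀ P : ZM ι, (zr P).PosSemidef → ∑ i, p i * P * (q i)ᵀ = 0 → P = 0

instance (A : Av a b) : Fintype A.α := A.fin

omit [Fintype ι] [DecidableEq ι] in
theorem zr_sum {α : Type} (s : Finset α) (x : α → ZM ι) : zr (∑ i ∈ s, x i) = ∑ i ∈ s, zr (x i) := by
  ext i j
  simp [zr, Matrix.sum_apply]

omit [Fintype ι] [DecidableEq ι] in
theorem zr_sub (g h : ZM ι) : zr (g - h) = zr g - zr h := by
  ext i j
  simp [zr]

theorem J_swap {R : Type} [CommRing R] {x y : Matrix (ι ⊕ ι) (ι ⊕ ι) R}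
    (h : xᵀ * J ι R = J ι R * y) : J ι R * x = yᵀ * J ι R := by
  have h1 := congrArg transpose h
  rw [transpose_mul, transpose_mul, transpose_transpose, J_transpose, Matrix.neg_mul,
    Matrix.mul_neg, neg_inj] at h1
  exact h1

namespace Fr

variable (Φ : Fr σ a b)

/-- The form of Bezout evaluated at `t`. -/
theorem cas : ∃ (N : ℕ) (c : Fin N → Fin N → ℤ) (d : σ → ℝ), (∀ s, d s ≠ 0) ∧
    (∀ P : RM ι, ∑ k, ∑ l, (c k l : ℝ) • (zr Φ.t ^ (k : ℕ) * P * (zr Φ.t ^ (l : ℕ))ᵀ) =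
      ∑ s, d s • (Φ.ep s * P * (Φ.ep s)ᵀ)) ∧
    ∀ M : RM ι, ∑ k, ∑ l, ((c k l : ℝ) * (zr Φ.t ^ (k : ℕ) * M).trace) • zr Φ.t ^ (l : ℕ) =
      ∑ s, (d s * (Φ.ep s * M).trace) • Φ.ep s := by
  classical
  obtain ⟨N, c, d, hd, h⟩ := exists_cas Φ.irr Φ.inj Φ.root
  have e : ∀ k : ℕ, zr Φ.t ^ k = ∑ s, Φ.θ s ^ k • Φ.ep s := fun k => by
    rw [← Matrix.mul_one (zr Φ.t ^ k), ← Φ.sum, Matrix.mul_sum]
    exact Finset.sum_congr rfl fun s _ => idem_pow (Φ.te s) k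
  have key : ∀ F : σ → σ → RM ι, ∑ k : Fin N, ∑ l : Fin N, ∑ s, ∑ s',
      ((c k l : ℝ) * Φ.θ s ^ (k : ℕ) * Φ.θ s' ^ (l : ℕ)) • F s s' = ∑ s, d s • F s s := fun F => by
    rw [Finset.sum_congr rfl fun k _ => Finset.sum_comm, Finset.sum_comm]
    refine Finset.sum_congr rfl fun s _ => ?_
    rw [Finset.sum_congr rfl fun k _ => Finset.sum_comm, Finset.sum_comm]
    simp only [← Finset.sum_smul, h, ite_smul, zero_smul, Finset.sum_ite_eq, Finset.mem_univ,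
      if_true]
  refine ⟨N, c, d, hd, fun P => ?_, fun M => ?_⟩
  · rw [← key fun s s' => Φ.ep s * P * (Φ.ep s')ᵀ]
    refine Finset.sum_congr rfl fun k _ => Finset.sum_congr rfl fun l _ => ?_
    simp only [e, transpose_sum, transpose_smul, Matrix.sum_mul, Matrix.mul_sum, Matrix.smul_mul,
      Matrix.mul_smul, Finset.smul_sum, smul_smul]
    rw [Finset.sum_comm]
    exact Finset.sum_congr rfl fun s _ => Finset.sum_congr rfl fun s' _ => by congr 1; ring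
  · simp only [mul_smul (d _)]
    rw [← key fun s s' => (Φ.ep s * M).trace • Φ.ep s']
    refine Finset.sum_congr rfl fun k _ => Finset.sum_congr rfl fun l _ => ?_
    simp only [e, Matrix.smul_mul, trace_sum, trace_smul, Finset.mul_sum,
      Finset.sum_mul, Finset.sum_smul, Finset.smul_sum, smul_smul, smul_eq_mul]
    rw [Finset.sum_comm]
    exact Finset.sum_congr rfl fun s _ => Finset.sum_congr rfl fun s' _ => by congr 1; ring

include Φ in
theorem exists_av : Nonempty (Av a b) := by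
  obtain ⟨N, c, d, hd, h, -⟩ := Φ.cas
  obtain ⟨j, hj⟩ : ∃ j : ZM ι, j = (2 : ℤ) • a - Φ.t := ⟨_, rfl⟩
  obtain ⟨μ, hμ⟩ : ∃ μ : ZM ι, μ = (4 * Φ.m : ℤ) • 1 - Φ.t * Φ.t := ⟨_, rfl⟩
  have j1 : j * j = -μ := by
    have h1 := Φ.aa
    rw [mul_sub, ← Φ.ta] at h1
    rw [hj, hμ]
    simp only [sub_mul, mul_sub, smul_mul_assoc, mul_smul_comm, ← Φ.ta]
    linear_combination (norm := module) (-4 : ℤ) • h1
  have j2 : b * j = -(j * b) := by
    rw [hj]
    simp only [sub_mul, mul_sub, smul_mul_assoc, mul_smul_comm, ← Φ.tb, Φ.ba]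
    module
  have j3 : J ι ℤ * j = -(jᵀ * J ι ℤ) := by
    rw [hj]
    simp only [sub_mul, mul_sub, smul_mul_assoc, mul_smul_comm, transpose_sub, transpose_smul,
      Φ.aJ, Φ.tJ]
    module
  have t1 : Φ.t * j = j * Φ.t := by
    rw [hj, mul_sub, sub_mul, mul_smul_comm, smul_mul_assoc, Φ.ta]
  have m1 : μ * j = j * μ := by
    rw [← neg_neg μ, ← j1, neg_mul, mul_neg, mul_assoc]
  have m2 : μ * b = b * μ := by
    rw [hμ, sub_mul, mul_sub, smul_mul_assoc, mul_smul_comm, one_mul, mul_one, mul_assoc, Φ.tb,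
      ← mul_assoc, Φ.tb, mul_assoc]
  let S : ZM ι → ZM ι := fun P => ∑ k, ∑ l, c k l • (Φ.t ^ (k : ℕ) * P * (Φ.t ^ (l : ℕ))ᵀ)
  have s1 : ∀ P, zr (S P) = ∑ s, d s • (Φ.ep s * zr P * (Φ.ep s)ᵀ) := fun P => by
    rw [← h]
    simp only [S, zr_sum, zr_smul, zr_mul, zr_tr, zr_pow]
  have s2 : ∀ P, Φ.t * S P = S P * Φ.tᵀ := fun P => zr_injective (by
    rw [zr_mul, zr_mul, s1, Matrix.mul_sum, Matrix.sum_mul, zr_tr]
    refine Finset.sum_congr rfl fun s _ => ?_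
    rw [Matrix.mul_smul, Matrix.smul_mul, Matrix.mul_assoc _ _ (zr Φ.t)ᵀ, ← transpose_mul,
      ← Matrix.mul_assoc, ← Matrix.mul_assoc, Φ.te, transpose_smul, Matrix.smul_mul,
      Matrix.smul_mul, Matrix.mul_smul])
  have s3 : ∀ P, μ * S P = S P * μᵀ := fun P => by
    rw [hμ, sub_mul, transpose_sub, mul_sub, mul_assoc, s2, ← mul_assoc, s2, transpose_mul,
      mul_assoc, transpose_smul, transpose_one, smul_mul_assoc, mul_smul_comm, one_mul, mul_one]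
  have s4 : ∀ P, Pᵀ = P → (S P)ᵀ = S P := fun P hP => zr_injective (by
    rw [zr_tr, s1, transpose_sum]
    refine Finset.sum_congr rfl fun s _ => ?_
    rw [transpose_smul, transpose_mul, transpose_mul, transpose_transpose, ← zr_tr, hP,
      Matrix.mul_assoc])
  let u : Fin 4 → ZM ι := ![b * b * μ, b * b * j, b * μ, b * j]
  let v : Fin 4 → ZM ι := ![1, j, b, b * j]
  have e : ∀ P, ∑ i : Fin 4 × Fin N × Fin N, u i.1 * (c i.2.1 i.2.2 • Φ.t ^ (i.2.1 : ℕ)) * P *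
      (v i.1 * Φ.t ^ (i.2.2 : ℕ))ᵀ = b * b * (μ * S P + j * S P * jᵀ) +
        b * (μ * S P + j * S P * jᵀ) * bᵀ := fun P => by
    have e1 : ∀ x y : ZM ι, ∑ i : Fin N × Fin N, x * (c i.1 i.2 • Φ.t ^ (i.1 : ℕ)) * P *
        (y * Φ.t ^ (i.2 : ℕ))ᵀ = x * S P * yᵀ := fun x y => by
      simp only [S, Fintype.sum_prod_type, Matrix.mul_sum, Matrix.sum_mul, transpose_mul,
        mul_smul_comm, smul_mul_assoc, mul_assoc]
    rw [Fintype.sum_prod_type]
    simp only [e1]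
    simp only [Fin.sum_univ_four, u, v, cons_val, transpose_one, mul_one, transpose_mul,
      mul_add, add_mul, mul_assoc, add_assoc]
  have w : ∀ (g : RM ι), g * zr a = zr a * g → g * zr b = zr b * g →
      Commute g (zr Φ.t) ∧ Commute g (zr j) ∧ Commute g (zr μ) ∧ Commute g (zr b) :=
    fun g ha hb => by
    have h1 : Commute g (zr Φ.t) := Φ.comm_t ha
    refine ⟨h1, ?_, ?_, hb⟩
    · rw [hj, zr_sub, zr_smul]
      exact (Commute.smul_right ha _).sub_right h1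
    · rw [hμ, zr_sub, zr_smul, zr_one, zr_mul]
      exact ((Commute.one_right g).smul_right _).sub_right (h1.mul_right h1)
  have a1 : ∀ P, j * (μ * S P + j * S P * jᵀ) = -((μ * S P + j * S P * jᵀ) * jᵀ) := fun P => by
    rw [mul_add, add_mul, mul_assoc _ jᵀ, ← transpose_mul, j1, ← mul_assoc j (j * S P),
      ← mul_assoc j j, j1, transpose_neg, mul_neg, mul_assoc j (S P), ← s3, neg_mul, neg_mul]
    abel
  have a2 : ∀ P, Φ.t * (μ * S P + j * S P * jᵀ) = (μ * S P + j * S P * jᵀ) * Φ.tᵀ := fun P => by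
    have h1 : Φ.t * μ = μ * Φ.t := by
      rw [hμ, sub_mul, mul_sub, smul_mul_assoc, mul_smul_comm, one_mul, mul_one, mul_assoc]
    rw [mul_add, add_mul, ← mul_assoc, h1, mul_assoc, s2, ← mul_assoc, ← mul_assoc, ← mul_assoc,
      t1, mul_assoc j, s2, mul_assoc _ jᵀ, ← transpose_mul, t1, transpose_mul]
    simp only [mul_assoc]
  have bt : ∀ P, b * b * (μ * S P + j * S P * jᵀ) = (μ * S P + j * S P * jᵀ) * (b * b)ᵀ :=
    fun P => Φ.bb ▸ aeval_tr (a2 P) Φ.β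
  refine ⟨⟨Fin 4 × Fin N × Fin N, inferInstance,
    fun i => u i.1 * (c i.2.1 i.2.2 • Φ.t ^ (i.2.1 : ℕ)), fun i => v i.1 * Φ.t ^ (i.2.2 : ℕ),
    fun i g ha hb => ?_, fun i g ha hb => ?_, fun P hP => ?_, fun P => ?_, fun P => ?_,
    fun P hP h0 => ?_⟩⟩
  · obtain ⟨w1, w2, w3, w4⟩ := w g ha hb
    rw [zr_mul, zr_smul, zr_pow]
    refine Commute.mul_right ?_ ((w1.pow_right _).smul_right _)
    obtain ⟨x, y⟩ := i
    fin_cases x <;> simp only [u, cons_val, zr_mul, Fin.reduceFinMk]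
    exacts [(w4.mul_right w4).mul_right w3, (w4.mul_right w4).mul_right w2, w4.mul_right w3,
      w4.mul_right w2]
  · obtain ⟨w1, w2, w3, w4⟩ := w g ha hb
    rw [zr_mul, zr_pow]
    refine Commute.mul_right ?_ (w1.pow_right _)
    obtain ⟨x, y⟩ := i
    fin_cases x <;> simp only [v, cons_val, zr_mul, zr_one, Fin.reduceFinMk]
    exacts [Commute.one_right _, w2, w4, w4.mul_right w2]
  · rw [e]
    have h1 : (μ * S P + j * S P * jᵀ)ᵀ = μ * S P + j * S P * jᵀ := by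
      simp only [transpose_add, transpose_mul, transpose_transpose, s4 P hP, ← s3, mul_assoc]
    rw [transpose_add, transpose_mul, h1, ← bt, transpose_mul, transpose_mul, transpose_transpose,
      h1, mul_assoc b _ bᵀ]
  · rw [e]
    have h1 := a1 P
    have h2 := a2 P
    generalize μ * S P + j * S P * jᵀ = T at h1 h2
    have h3 : (2 : ℤ) • a = Φ.t + j := by rw [hj, add_sub_cancel]
    have h4 : jᵀ * bᵀ = -(bᵀ * jᵀ) := by
      rw [← transpose_mul, j2, transpose_neg, transpose_mul]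
    have h5 : Φ.tᵀ * bᵀ = bᵀ * Φ.tᵀ := by rw [← transpose_mul, ← Φ.tb, transpose_mul]
    have h6 : j * (b * T * bᵀ) = -(b * T * bᵀ * jᵀ) := by
      rw [← mul_assoc, ← mul_assoc, ← neg_neg (j * b), ← j2, neg_mul, mul_assoc b, h1, mul_neg,
        neg_neg, ← mul_assoc, mul_assoc _ jᵀ, h4, mul_neg, ← mul_assoc]
    have h7 : Φ.t * (b * T * bᵀ) = b * T * bᵀ * Φ.tᵀ := by
      rw [← mul_assoc, ← mul_assoc, Φ.tb, mul_assoc b, h2, ← mul_assoc, mul_assoc _ Φ.tᵀ, h5,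
        ← mul_assoc]
    have h8 : j * (b * b * T) = -(b * b * T * jᵀ) := by
      rw [← mul_assoc, ← mul_assoc, ← neg_neg (j * b), ← j2, neg_mul, mul_assoc b j,
        ← neg_neg (j * b), ← j2, mul_neg, neg_neg, ← mul_assoc, mul_assoc _ j, h1, mul_neg,
        ← mul_assoc]
    have h9 : Φ.t * (b * b * T) = b * b * T * Φ.tᵀ := by
      rw [← mul_assoc, ← mul_assoc, Φ.tb, mul_assoc b, Φ.tb, ← mul_assoc, mul_assoc _ Φ.t, h2,
        ← mul_assoc]
    refine smul_right_injective _ (two_ne_zero (α := ℤ)) ?_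
    beta_reduce
    rw [← mul_smul_comm, ← smul_mul_assoc, h3, mul_assoc, mul_add (J ι ℤ), j3, ← Φ.tJ,
      ← mul_assoc, ← neg_mul, ← add_mul Φ.tᵀ, ← mul_assoc]
    congr 1
    generalize b * T * bᵀ = U at h6 h7
    generalize b * b * T = V at h8 h9
    simp only [add_mul, mul_add, h6, h7, h8, h9, mul_neg]
    abel
  · rw [e]
    have h1 := bt P
    generalize μ * S P + j * S P * jᵀ = T at h1
    rw [mul_assoc, ← Φ.bJ, ← mul_assoc, ← mul_assoc]
    congr 1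
    rw [add_mul, mul_add, mul_assoc _ bᵀ, ← transpose_mul, mul_assoc b T, ← h1, add_comm]
    simp only [mul_assoc]
  · rw [e] at h0
    have k : ∀ s (x : ι ⊕ ι → ℝ), zr P *ᵥ ((Φ.ep s)ᵀ *ᵥ x) = 0 := fun s x => by
      have q0 : ∀ (g : RM ι) (y : ι ⊕ ι → ℝ), y ⬝ᵥ (g * zr (S P) * gᵀ) *ᵥ y =
          (gᵀ *ᵥ y) ⬝ᵥ zr (S P) *ᵥ (gᵀ *ᵥ y) := fun g y => by
        rw [← mulVec_mulVec, ← mulVec_mulVec, dotProduct_mulVec y, mulVec_transpose g y]
      have q1 : Φ.ep s * zr (S P) = d s • (Φ.ep s * zr P * (Φ.ep s)ᵀ) := by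
        rw [s1, Matrix.mul_sum, Finset.sum_eq_single s (fun s' _ hs => by
          rw [Matrix.mul_smul, ← mul_assoc, ← mul_assoc, Φ.orth _ _ hs.symm]; simp) (by simp),
          Matrix.mul_smul, ← mul_assoc, ← mul_assoc, Φ.sq]
      have q2 : Φ.ep s * zr μ = (4 * Φ.m - Φ.θ s ^ 2) • Φ.ep s := by
        rw [hμ, zr_sub, zr_smul, zr_one, zr_mul, mul_sub, ← mul_assoc, Φ.et, smul_mul_assoc, Φ.et,
          mul_smul_comm, mul_one, smul_smul, sub_smul, _root_.sq]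
        push_cast
        rfl
      obtain ⟨-, w2, w3, w4⟩ := w (Φ.ep s) (Φ.ep_mem s _ (Or.inl rfl)) (Φ.ep_mem s _ (Or.inr rfl))
      obtain ⟨T, hT⟩ : ∃ T, T = Φ.ep s * zr P * (Φ.ep s)ᵀ := ⟨_, rfl⟩
      have q3 : Φ.ep s * zr (μ * S P + j * S P * jᵀ) =
          d s • ((4 * Φ.m - Φ.θ s ^ 2) • T + zr j * T * (zr j)ᵀ) := by
        rw [zr_add, zr_mul, zr_mul, zr_mul, mul_add, ← mul_assoc, q2, smul_mul_assoc, q1,
          ← mul_assoc, ← mul_assoc, w2.eq, mul_assoc (zr j), q1, ← hT, smul_add, smul_comm,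
          mul_smul_comm, smul_mul_assoc, zr_tr]
      have q4 := congrArg (fun y => Φ.ep s * zr y) h0
      simp only [zr_add _ (b * _ * _), zr_mul (b * b), zr_mul _ bᵀ, zr_mul b (_ + _)] at q4
      rw [mul_add, ← mul_assoc, Φ.eb, smul_mul_assoc, ← mul_assoc, ← mul_assoc, w4.eq,
        mul_assoc (zr b), q3,
        show zr (0 : ZM ι) = 0 from Matrix.map_zero _ Int.cast_zero, mul_zero, smul_comm,
        mul_smul_comm, smul_mul_assoc, ← smul_add, smul_eq_zero, or_iff_right (hd s)] at q4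
      have q5 : ∀ (g : RM ι) (U : RM ι) (y : ι ⊕ ι → ℝ), y ⬝ᵥ (g * U * gᵀ) *ᵥ y =
          (gᵀ *ᵥ y) ⬝ᵥ U *ᵥ (gᵀ *ᵥ y) := fun g U y => by
        rw [← mulVec_mulVec, ← mulVec_mulVec, dotProduct_mulVec y, mulVec_transpose g y]
      have q6 : ∀ y, 0 ≤ y ⬝ᵥ T *ᵥ y := fun y => by
        rw [hT, q5]
        exact hP.dotProduct_mulVec_nonneg _
      have q7 := congrArg (fun U : RM ι => x ⬝ᵥ U *ᵥ x) q4
      simp only [zr_tr, add_mulVec, dotProduct_add, smul_mulVec, dotProduct_smul, q5, smul_eq_mul,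
        zero_mulVec, dotProduct_zero] at q7
      have q8 := sub_pos.2 (Φ.pos s)
      have q9 := Φ.n0 s
      have r1 := q6 x
      have r2 := mul_nonneg q9.le (q6 ((zr j)ᵀ *ᵥ x))
      have r3 := mul_nonneg q8.le (q6 ((zr b)ᵀ *ᵥ x))
      have r4 := q6 ((zr j)ᵀ *ᵥ (zr b)ᵀ *ᵥ x)
      have r5 : x ⬝ᵥ T *ᵥ x = 0 := by
        by_contra h1
        have := mul_pos q9 (mul_pos q8 (lt_of_le_of_ne r1 (Ne.symm h1)))
        nlinarith
      rw [hT, q5] at r5
      exact (hP.dotProduct_mulVec_zero_iff _).1 r5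
    refine zr_injective (Matrix.ext_iff_mulVec.2 fun x => ?_)
    rw [← Matrix.mul_one (zr P), ← transpose_one, ← Φ.sum, transpose_sum, Matrix.mul_sum,
      Matrix.sum_mulVec, show zr (0 : ZM ι) = 0 from Matrix.map_zero _ Int.cast_zero, zero_mulVec]
    exact Finset.sum_eq_zero fun s _ => by rw [← mulVec_mulVec, k]

end Fr

end MG.E3
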