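import Pool.Agent.Lib.MP_33b3f9_ag.MG.E3.Nd

/-! Orbits are analytically dense in the fixed locus, for a product of simple factors. -/

set_option autoImplicit false

noncomputable section

namespace MG.E3

open Matrix Filter Topology M4 Complex M8.E3

variable {σ ι : Type} [Fintype ι] [DecidableEq ι] {τ z : Matrix ι ι ℂ} {A H : Set (MR ι)}
  {O : Set (Matrix ι ι ℂ)}

/-- A stable subspace of the Lie algebra contains every factor on which it projects. -/
def IrrP (G A : Set (MR ι)) (ep : σ → MR ι) : Prop :=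
  ∀ k : Submodule ℂ (MC ι), k ≤ gC A →
    (∀ g ∈ G, ∀ g', g * g' = 1 → ∀ X ∈ k, cx g * X * cx g' ∈ k) →
      ∀ s, ∀ X ∈ k, cx (ep s) * X ≠ 0 → ∀ Y ∈ gC A, cx (ep s) * Y ∈ k

/-- The nilpotent element that moves `z` to `τ`. -/
theorem exists_N (hz : InH z) (hτ : InH τ) (h0 : ∀ x ∈ A, cst z * x = x * cst z)
    (h1 : ∀ x ∈ A, cst τ * x = x * cst τ) {e : MR ι} (e0 : cst z * e = e * cst z)
    (e1 : cst τ * e = e * cst τ) (e2 : e * cst z = e * cst τ) : ∃ N ∈ gC A, cx e * N = 0 ∧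
      N * N = 0 ∧
      rw' τ * (1 + N) * cl' z = 0 ∧
      ∀ s : ℝ, 0 ≤ s → s ≤ 1 → ∀ u, u ≠ 0 → 0 < hq (((1 + (s : ℂ) • N) * cl' z) *ᵥ u) := by
  obtain ⟨T, t1, t2, t3, t5⟩ := exists_T (A := insert e (insert (e * cst z) A)) hz hτ
    (by
      rintro x (rfl | rfl | hx)
      exacts [e0, by rw [← Matrix.mul_assoc, e0], h0 x hx])
    (by
      rintro x (rfl | rfl | hx)
      exacts [e1, by rw [e2, ← Matrix.mul_assoc, e1], h1 x hx])
  have t4 : ∀ x ∈ A, T * x = x * T := fun x hx => t5 x (Or.inr (Or.inr hx))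
  have t6 : e * T = 0 := by
    have u1 := t5 _ (Or.inr (Or.inl rfl))
    rw [← Matrix.mul_assoc, t5 e (Or.inl rfl), Matrix.mul_assoc e (cst z), ← neg_neg (cst z * T),
      ← t2, Matrix.mul_neg, ← Matrix.mul_assoc] at u1
    have u2 := congrArg (· * cst z) u1
    simp only [Matrix.neg_mul, Matrix.mul_assoc _ (cst z), cst_sq hz, Matrix.mul_neg,
      Matrix.mul_one, neg_neg] at u2
    linear_combination (norm := module) (-2⁻¹ : ℝ) • u2
  have p1 := cst_cl hz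
  have p2 : cx (cst z) * cx (cst z) = -1 := by rw [← cx_mul, cst_sq hz, cx_neg, cx_one]
  have p3 : cx T * cx (cst z) = -(cx (cst z) * cx T) := by rw [← cx_mul, t2, cx_neg, cx_mul]
  have p4 : cx (cst τ) * (1 + cx T) = (1 + cx T) * cx (cst z) := by
    rw [← cx_one, ← cx_add, ← cx_mul, t3, cx_mul]
  have p5 : cx (T * cst z) ∈ spC ι := cx_mem_spC (by
    rw [transpose_mul, Matrix.mul_assoc, eq_neg_of_add_eq_zero_left t1, Matrix.mul_neg,
      ← Matrix.mul_assoc, eq_neg_of_add_eq_zero_left (cst_sp hz), t2, Matrix.neg_mul, neg_neg,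
      Matrix.mul_neg, Matrix.mul_assoc, add_neg_cancel])
  have n1 : ((2 : ℂ)⁻¹ • (cx T + I • cx (T * cst z))) * cl' z = cx T * cl' z := by
    rw [Matrix.smul_mul, Matrix.add_mul, Matrix.smul_mul, cx_mul, Matrix.mul_assoc, p1,
      Matrix.mul_smul, smul_smul, mul_neg, I_mul_I, neg_neg, one_smul, ← two_smul ℂ, smul_smul]
    simp
  have n2 : rw' τ * ((1 + cx T) * cl' z) = 0 := by
    have e : I • (rw' τ * ((1 + cx T) * cl' z)) = -I • (rw' τ * ((1 + cx T) * cl' z)) := by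
      rw [← Matrix.smul_mul, ← rw_cst hτ, Matrix.mul_assoc, ← Matrix.mul_assoc (cx _), p4,
        Matrix.mul_assoc, p1, Matrix.mul_smul, Matrix.mul_smul]
    rw [← sub_eq_zero, ← sub_smul, smul_eq_zero] at e
    exact e.resolve_left (by simp [← two_mul])
  refine ⟨(2 : ℂ)⁻¹ • (cx T + I • cx (T * cst z)), Submodule.smul_mem _ _ (add_mem
    ⟨cx_mem_spC t1, fun x hx => by rw [← cx_mul, t4 x hx, cx_mul]⟩ (Submodule.smul_mem _ _
      ⟨p5, fun x hx => by
        rw [← cx_mul, ← cx_mul, Matrix.mul_assoc, h0 x hx, ← Matrix.mul_assoc, t4 x hx,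
          Matrix.mul_assoc]⟩)), ?_, ?_, ?_, fun s s0 s1 u hu => ?_⟩
  · rw [Matrix.mul_smul, Matrix.mul_add, Matrix.mul_smul, ← cx_mul, ← cx_mul, ← Matrix.mul_assoc,
      t6, Matrix.zero_mul, show cx (0 : MR ι) = 0 from Matrix.map_zero _ ofReal_zero]
    simp
  · have e : (cx T + I • cx (T * cst z)) * (cx T + I • cx (T * cst z)) = 0 := by
      rw [cx_mul]
      generalize cx T = a at p3 ⊢
      generalize cx (cst z) = b at p2 p3 ⊢
      have e1 : a * b * a = -(a * (a * b)) := by rw [p3, Matrix.mul_neg, neg_neg, ← p3, Matrix.mul_assoc, ← neg_neg (b * a), ← p3, p3, neg_neg]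
      have e2 : a * b * (a * b) = a * a := by
        rw [← Matrix.mul_assoc, e1, Matrix.neg_mul, Matrix.mul_assoc, Matrix.mul_assoc, p2]
        simp
      simp only [add_mul, mul_add, Matrix.smul_mul, Matrix.mul_smul, e1, e2, smul_smul,
        I_mul_I]
      module
    rw [Matrix.smul_mul, Matrix.mul_smul, e, smul_zero, smul_zero]
  · rw [Matrix.mul_assoc, Matrix.add_mul, n1, ← Matrix.add_mul, n2]
  · have x1 : cx (cst z) *ᵥ (cl' z *ᵥ u) = -I • (cl' z *ᵥ u) := by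
      rw [mulVec_mulVec, p1, smul_mulVec]
    have x2 : cx (cst z) *ᵥ (cx T *ᵥ (cl' z *ᵥ u)) = I • (cx T *ᵥ (cl' z *ᵥ u)) := by
      rw [mulVec_mulVec, ← neg_neg (cx (cst z) * cx T), ← p3, neg_mulVec, ← mulVec_mulVec, x1,
        mulVec_smul, neg_smul, neg_neg]
    have x3 : 0 < hq (cl' z *ᵥ u) := by
      rw [hq_cl]
      exact mul_pos two_pos ((act_inH_iff.1 hz).2 u hu)
    have x4 : (1 + cx T) * cl' z = cl' τ * dc (1 + cx T) z := by
      rw [mul_cl, rw', fromCols_mul_fromRows, Matrix.one_mul, add_neg_eq_zero] at n2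
      rw [mul_cl, cl', fromRows_mul, Matrix.one_mul, Matrix.neg_mul, n2]
    have x5 : cl' z *ᵥ u + ((1 : ℝ) : ℂ) • cx T *ᵥ (cl' z *ᵥ u) = cl' τ *ᵥ (dc (1 + cx T) z *ᵥ u) := by
      rw [mulVec_mulVec u (cl' τ), ← x4, ← mulVec_mulVec, add_mulVec, one_mulVec, ofReal_one,
        one_smul]
    have x6 : 0 < hq (cl' z *ᵥ u) + 1 ^ 2 * hq (cx T *ᵥ (cl' z *ᵥ u)) := by
      rw [← hq_add (cst_sp hz) x1 x2, x5, hq_cl]
      refine mul_pos two_pos ((act_inH_iff.1 hτ).2 _ fun h => x3.ne' ?_)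
      rw [h, mulVec_zero, ofReal_one, one_smul] at x5
      have x7 := congrArg (cx (cst z) *ᵥ ·) x5
      simp only [mulVec_add, x1, x2, mulVec_zero] at x7
      rw [eq_neg_of_add_eq_zero_right x5, smul_neg, neg_smul, ← neg_add, neg_eq_zero, ← add_smul,
        smul_eq_zero] at x7
      rw [x7.resolve_left (by simp [← two_mul]), hq]
      simp
    rw [Matrix.add_mul, Matrix.smul_mul, n1, Matrix.one_mul, add_mulVec, smul_mulVec,
      ← mulVec_mulVec, hq_add (cst_sp hz) x1 x2]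
    have x8 : s ^ 2 ≤ 1 := pow_le_one₀ s0 s1
    rcases x8.eq_or_lt with e | e
    · rwa [e, ← one_pow 2]
    · nlinarith [mul_pos (sub_pos.2 e) x3, mul_nonneg (sq_nonneg s) x6.le]

theorem zero_of_gC {e : MR ι} (h : ∀ N ∈ gC A, cx e * N = 0 → N ∈ tg O) (hO : z ∈ O) (hz : InH z)
    (hτ : InH τ) (h0 : ∀ x ∈ A, cst z * x = x * cst z) (h1 : ∀ x ∈ A, cst τ * x = x * cst τ)
    (e0 : cst z * e = e * cst z) (e1 : cst τ * e = e * cst τ) (e2 : e * cst z = e * cst τ)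
    {F : (ι → ι → ℂ) → ℂ} (hF : Van O F) : F τ = 0 := by
  obtain ⟨N, n1, n0, n2, n3, n4⟩ := exists_N hz hτ h0 h1 e0 e1 e2
  have hs : ∀ s : ℂ, (1 + s • N)ᵀ * J ι ℂ * (1 + s • N) = J ι ℂ := fun s => by
    have e : Nᵀ * J ι ℂ = -(J ι ℂ * N) := eq_neg_of_add_eq_zero_left n1.1
    rw [transpose_add, transpose_one, transpose_smul, Matrix.add_mul, Matrix.one_mul,
      Matrix.smul_mul, e, Matrix.mul_add, Matrix.mul_one, Matrix.mul_smul, Matrix.add_mul,
      Matrix.smul_mul, Matrix.neg_mul, Matrix.mul_assoc, n2]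
    simp
  have hc : Continuous fun t : ℂ => (dc (1 + t • N) z).det :=
    (continuous_dc.comp (Continuous.prodMk (by fun_prop) continuous_const)).matrix_det
  obtain ⟨V, v1, v2, v3, v4, v5⟩ := exists_dom
    (U := {s : ℂ | (dc (1 + s • N) z).det ≠ 0} ∩ (fun s i j => ac (1 + s • N) z i j) ⁻¹' PosIm ι)
    (ContinuousOn.isOpen_inter_preimage
      (fun s hs => (hasDerivAt_ac n2 hs).continuousAt.continuousWithinAt)
      (isOpen_ne_fun hc continuous_const) isOpen_posIm)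
    fun t t0 t1 => ⟨dc_det (n4 t t0 t1), (ac_inH (hs t) hz.1 (n4 t t0 t1)).posIm⟩
  have h2 := curve_zero (h N n1 n0) (c := fun s => ac (1 + s • N) z) v2 v3 v4
    (fun s hs' => inH_of_posIm (ac_symm (hs s) hz.1 (v1 hs').1) (v1 hs').2)
    (fun s hs' => hasDerivAt_ac n2 (v1 hs').1) (Set.mem_of_eq_of_mem (by
      change ac (1 + (0 : ℂ) • N) z = z
      rw [zero_smul, add_zero, ← cx_one, ac_cx, act_one]) hO) hF 1 v5
  have e : ac (1 + (1 : ℂ) • N) z = τ := by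
    rw [ac_eq (v1 v5).1 τ, one_smul, n3, Matrix.zero_mul, sub_zero]
  exact e ▸ h2

theorem comm_inv {R : Type} [Ring R] {g g' x : R} (e : g * g' = 1) (e' : g' * g = 1)
    (h : g * x = x * g) : g' * x = x * g' := by
  rw [← mul_one (g' * x), ← e, ← mul_assoc, mul_assoc g', ← h, ← mul_assoc, e', one_mul]

theorem gC_conj {g g' : MR ι} {μ : ℝ} (hg : Sim g μ) (e : g * g' = 1)
    (hA : ∀ x ∈ A, g * x = x * g) {Y : MC ι} (hY : Y ∈ gC A) : cx g * Y * cx g' ∈ gC A := by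
  refine ⟨spC_conj hg e hY.1, fun x hx => ?_⟩
  have e1 := hA x hx
  have e2 := comm_inv e (mul_eq_one_comm.1 e) e1
  rw [Matrix.mul_assoc, ← cx_mul, e2, cx_mul, ← Matrix.mul_assoc, Matrix.mul_assoc (cx g),
    hY.2 x hx, ← Matrix.mul_assoc, ← cx_mul, e1, cx_mul]
  simp only [Matrix.mul_assoc]

/-- A new direction outside the factors that are already tangent. -/
theorem new_dir (h : Orb H O) (hA : ∀ g ∈ H, ∀ x ∈ A, g * x = x * g) (hn : ND H)
    (hO : ∀ z ∈ O, ∀ x ∈ A, cst z * x = x * cst z) {e : MR ι} (e1 : e * e = e)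
    (e2 : eᵀ * J ι ℝ = J ι ℝ * e) (e3 : ∀ x ∈ A, e * x = x * e)
    (e4 : ∀ g : MR ι, (∀ x ∈ A, g * x = x * g) → g * e = e * g)
    (hr : ∀ g ∈ H, e * (g - 1) = 0 → g = 1) (ht : ∀ N ∈ gC A, cx e * N = 0 → N ∈ tg O) :
    ∃ X ∈ gC A, X ∈ tg O ∧ cx e * X ≠ 0 := by
  let O' : Set (Matrix ι ι ℂ) := {τ | InH τ ∧ (∀ x ∈ A, cst τ * x = x * cst τ) ∧
    ∃ z ∈ O, e * cst z = e * cst τ}
  let H' : Set (MR ι) := (fun g => 1 + e * (g - 1)) '' H
  have m1 : ∀ g : MR ι, e * (1 + e * (g - 1)) = e * g := fun g => by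
    rw [mul_add, ← mul_assoc, e1, mul_one, mul_sub, mul_one, add_sub_cancel]
  have m2 : ∀ g g' : MR ι, g * e = e * g → (1 + e * (g - 1)) * (1 + e * (g' - 1)) =
      1 + e * (g * g' - 1) := fun g g' hg => by
    have u : ∀ y, e * (g * (e * y)) = e * (g * y) := fun y => by
      rw [← mul_assoc g, hg, mul_assoc, ← mul_assoc, e1]
    have u' : ∀ y, e * (e * y) = e * y := fun y => by rw [← mul_assoc, e1]
    simp only [mul_add, add_mul, mul_sub, sub_mul, mul_one, one_mul, mul_assoc, u, u', e1, hg]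
    abel
  have a1 : ∀ g ∈ H', ∀ x ∈ A, g * x = x * g := by
    rintro _ ⟨g, hg, rfl⟩ x hx
    exact ((Commute.one_left x).add_left (Commute.mul_left (e3 x hx)
      (Commute.sub_left (hA g hg x hx) (Commute.one_left x)))).eq
  have a2 : ∀ g ∈ H', Sim g 1 := by
    rintro _ ⟨g, hg, rfl⟩
    have u0 := CL.sim_iff _ _ |>.1 (h.sim g hg)
    have u1 := e4 g (hA g hg)
    obtain ⟨g', -, u2⟩ := h.inv g hg
    have u3 : gᵀ * J ι ℝ = J ι ℝ * g' := by
      rw [← one_smul ℝ (J ι ℝ * g'), ← smul_mul_assoc, ← u0, mul_assoc, u2, mul_one]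
    have u4 := comm_inv u2 (mul_eq_one_comm.1 u2) u1
    have u5 : (1 + e * (g - 1))ᵀ * J ι ℝ = J ι ℝ * (1 + e * (g' - 1)) := by
      rw [transpose_add, transpose_mul, transpose_sub, transpose_one, add_mul, one_mul, mul_assoc,
        e2, sub_mul, ← mul_assoc, u3, one_mul, mul_assoc, u4]
      simp only [mul_add, mul_sub, mul_one]
    rw [CL.sim_iff, u5, mul_assoc, m2 _ _ u4, mul_eq_one_comm.1 u2]
    simp
  have hO' : Orb H' O' := ⟨a2, ?_, fun z hz => hz.1, ?_⟩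
  rotate_left
  · rintro _ ⟨g, hg, rfl⟩
    obtain ⟨g', hg', u⟩ := h.inv g hg
    exact ⟨_, ⟨g', hg', rfl⟩, by rw [m2 _ _ (e4 g (hA g hg)), u]; simp⟩
  · rintro k hk τ ⟨t1, t2, z, hz, t3⟩
    have u1 := cst_act (a2 k hk) one_pos t1
    have u0 := CL.Sim.isUnit' (a2 k hk) one_ne_zero
    refine ⟨inH_act (a2 k hk) one_pos t1, fun x hx => u0.mul_right_cancel ?_, ?_⟩
    · rw [mul_assoc, ← a1 k hk x hx, ← mul_assoc, u1, mul_assoc, t2 x hx, ← mul_assoc,
        a1 k hk x hx, mul_assoc, mul_assoc, u1]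
    · have u2 := e4 k (a1 k hk)
      obtain ⟨g, hg, rfl⟩ := hk
      have u3 := cst_act (h.sim g hg) one_pos (h.inH z hz)
      have u4 := e4 _ (hO _ (h.st g hg z hz))
      refine ⟨_, h.st g hg z hz, u0.mul_right_cancel ?_⟩
      beta_reduce at *
      rw [mul_assoc e (cst (act _ τ)), u1, ← mul_assoc, ← u2, mul_assoc _ e, ← t3, ← mul_assoc,
        u2, m1, ← u4, mul_assoc, m1, ← mul_assoc, u4, mul_assoc, u3, mul_assoc]
  have hv : ∀ F, Van O F → Van O' F := fun F hF => ⟨hF.1, by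
    rintro τ ⟨t1, t2, z, hz, t3⟩
    exact zero_of_gC ht hz (h.inH z hz) t1 (hO z hz) t2 (e4 _ (hO z hz)) (e4 _ t2) t3 hF⟩
  have hn' : ND H' := fun ε hε => by
    have hc : Continuous fun x : MR ι => e * x := continuous_const.matrix_mul continuous_id
    have u1 : ∀ᶠ x : ι ⊕ ι → ι ⊕ ι → ℝ in 𝓝 0, ∀ i j, |(e * Matrix.of x) i j| < ε :=
      eventually_all.2 fun i => eventually_all.2 fun j =>
        (hc.matrix_elem i j).abs.continuousAt.eventually_lt continuousAt_const (by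
          change |(e * (0 : MR ι)) i j| < ε
          simpa)
    obtain ⟨r, hr0, hb⟩ := Metric.eventually_nhds_iff_ball.1 u1
    obtain ⟨g, hg, u2, u3⟩ := hn r hr0
    refine ⟨_, ⟨g, hg, rfl⟩, fun u => u2 (hr g hg (add_eq_left.1 u)), ?_⟩
    rw [add_sub_cancel_left]
    refine hb (fun i j => (g - 1) i j) ?_
    rw [mem_ball_zero_iff, pi_norm_lt_iff hr0]
    exact fun i => (pi_norm_lt_iff hr0).2 (u3 i)
  obtain ⟨X, hX0, hX⟩ := hn'.dir
  have x1 : e * X = X := by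
    obtain ⟨t, Y, h1, h2, -, h4⟩ := hX
    refine tendsto_nhds_unique (((continuous_const.matrix_mul continuous_id).tendsto X).comp h4)
      (h4.congr fun n => ?_)
    obtain ⟨g, -, u⟩ := h2 n
    refine smul_right_injective _ (h1 n) ?_
    have u1 : e * (g - 1) = t n • Y n := add_left_cancel u
    change t n • Y n = t n • (e * Y n)
    rw [← mul_smul_comm, ← u1, ← mul_assoc, e1]
  refine ⟨cx X, ⟨cx_mem_spC (hX.sp a2), fun x hx => by
    rw [← cx_mul, hX.comm fun g hg => a1 g hg x hx, cx_mul]⟩, fun F hF w hw =>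
      hO'.dir hX F (hv F hF) w ⟨h.inH w hw, hO w hw, w, hw, rfl⟩, fun u => hX0 ?_⟩
  rw [← cx_mul, x1] at u
  exact Matrix.ext fun i j => ofReal_eq_zero.1 (congrFun (congrFun u i) j)

variable [Fintype σ] {a b : CL.ZM ι}

/-- A rational group that accumulates at the identity and acts irreducibly on every factor of
the Lie algebra has analytically dense orbits in the fixed locus. -/
theorem lim_fix (Φ : Fr σ a b) (h : Orb H O)
    (hA : ∀ g ∈ H, ∀ x ∈ ({CL.zr a, CL.zr b} : Set (MR ι)), g * x = x * g) (hn : ND H)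
    (hq : ∀ g ∈ H, CL.RatM g) (hi : IrrP H {CL.zr a, CL.zr b} Φ.ep)
    (hO : ∀ z ∈ O, ∀ x ∈ ({CL.zr a, CL.zr b} : Set (MR ι)), cst z * x = x * cst z) (hz : z ∈ O)
    (hτ : InH τ) (h1 : ∀ x ∈ ({CL.zr a, CL.zr b} : Set (MR ι)), cst τ * x = x * cst τ)
    {F : (ι → ι → ℂ) → ℂ} (hF : DifferentiableOn ℂ F (PosIm ι)) (hv : ∀ w ∈ O, F w = 0) :
    F τ = 0 := by
  classical
  have hc : ∀ S : Finset σ, cx (∑ s ∈ S, Φ.ep s) = ∑ s ∈ S, cx (Φ.ep s) := fun S =>
    map_sum ofRealHom.mapMatrix _ _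
  obtain ⟨S, hS⟩ : ∃ S : Finset σ, ∀ s, s ∈ S ↔
      ¬ ∀ Y ∈ gC {CL.zr a, CL.zr b}, cx (Φ.ep s) * Y ∈ tg O :=
    ⟨Finset.univ.filter fun s => ¬ ∀ Y ∈ gC {CL.zr a, CL.zr b}, cx (Φ.ep s) * Y ∈ tg O,
      fun s => by rw [Finset.mem_filter, and_iff_right (Finset.mem_univ s)]⟩
  have ht : ∀ N ∈ gC {CL.zr a, CL.zr b}, cx (∑ s ∈ S, Φ.ep s) * N = 0 → N ∈ tg O :=
    fun N hN h0 => by
    rw [← one_mul N, ← Φ.sumC, ← Finset.sum_add_sum_compl S, add_mul, ← hc, h0, zero_add,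
      Finset.sum_mul]
    exact sum_mem fun s hs => not_not.1 (mt (hS s).2 (Finset.mem_compl.1 hs)) N hN
  have e0 : ∀ s ∈ S, Φ.ep s * ∑ s ∈ S, Φ.ep s = Φ.ep s := fun s hs => by
    rw [Finset.mul_sum, Finset.sum_eq_single s (fun s' _ h => Φ.orth _ _ h.symm)
      (fun h => absurd hs h), Φ.sq]
  rcases S.eq_empty_or_nonempty with rfl | ⟨s, hs⟩
  · exact zero_of_gC ht hz (h.inH z hz) hτ (hO z hz) h1 (by simp) (by simp) (by simp)
      ⟨fun σ hσ => Pool.Agent.Lib.MP_a47f92_an.Osg.analyticOnNhd_of_differentiableOn isOpen_posIm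
        hF _ hσ.posIm, hv⟩
  obtain ⟨X, x1, x2, x3⟩ := new_dir h hA hn hO (e := ∑ s ∈ S, Φ.ep s)
    (by rw [Finset.sum_mul]; exact Finset.sum_congr rfl e0)
    (by rw [transpose_sum, Finset.sum_mul, Finset.mul_sum]; simp only [Φ.adj])
    (fun x hx => (Commute.sum_left _ _ _ fun s _ => Φ.ep_mem s x hx).eq)
    (fun g hg => (Commute.sum_right _ _ _ fun s _ => Φ.comm (hg _ (Or.inl rfl)) s).eq)
    (fun g hg h0 => by
      obtain ⟨n, n0, β, hβ⟩ := hq g hg
      have u1 : CL.zr (β - (n : ℤ) • 1) = (n : ℝ) • (g - 1) := by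
        rw [zr_sub, CL.zr_smul, CL.zr_one, ← hβ, smul_sub, Int.cast_natCast]
      have u2 := Φ.ratZ (β := β - (n : ℤ) • 1) (s := s) (by
        rw [u1, ← e0 s hs, mul_smul_comm, mul_assoc, h0, mul_zero, smul_zero])
      rw [u2, show CL.zr (0 : CL.ZM ι) = 0 from Matrix.map_zero _ Int.cast_zero, eq_comm,
        smul_eq_zero] at u1
      exact sub_eq_zero.1 (u1.resolve_left (Nat.cast_ne_zero.2 n0))) ht
  rw [hc, Finset.sum_mul] at x3
  obtain ⟨s', hs', x4⟩ := Finset.exists_ne_zero_of_sum_ne_zero x3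
  exact absurd (fun Y hY => (hi (gC _ ⊓ tg O) inf_le_left (fun g hg g' e Y hY =>
    ⟨gC_conj (h.sim g hg) e (hA g hg) hY.1, h.conj hg e hY.2⟩) s' X ⟨x1, x2⟩ x4 Y hY).2)
    ((hS s').1 hs')

end MG.E3
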