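import Pool.Agent.Lib.MP_33b3f9_ag.M8.E3.Nd

/-! The real idempotents of a totally real field of matrices. -/

set_option autoImplicit false

namespace MG.E3

open Matrix M4 M4.CL M8.E3 Polynomial

variable {σ : Type} [Fintype σ]

section idem

variable {K A : Type} [Field K] [Ring A] [Algebra K A] {e : σ → A} {θ : σ → K} {t g : A}

theorem idem_sq (hs : ∑ s, e s = 1) (ho : ∀ s s', s ≠ s' → e s * e s' = 0) (s : σ) :
    e s * e s = e s := by
  conv_rhs => rw [← mul_one (e s), ← hs, Finset.mul_sum]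
  exact (Finset.sum_eq_single s (fun s' _ h => ho _ _ h.symm) (by simp)).symm

theorem idem_et (hs : ∑ s, e s = 1) (ho : ∀ s s', s ≠ s' → e s * e s' = 0)
    (ht : ∀ s, t * e s = θ s • e s) (s : σ) : e s * t = θ s • e s := by
  rw [← mul_one t, ← hs, Finset.mul_sum, Finset.mul_sum, Finset.sum_eq_single s
    (fun s' _ h => by rw [ht, mul_smul_comm, ho _ _ h.symm, smul_zero]) (by simp), ht,
    mul_smul_comm, idem_sq hs ho]

theorem idem_comm (hs : ∑ s, e s = 1) (ho : ∀ s s', s ≠ s' → e s * e s' = 0)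
    (hi : Function.Injective θ) (ht : ∀ s, t * e s = θ s • e s) (h : g * t = t * g) (s : σ) :
    g * e s = e s * g := by
  have h1 : ∀ s s', s ≠ s' → e s * g * e s' = 0 := fun s s' hne => by
    have h2 : θ s' • (e s * g * e s') = θ s • (e s * g * e s') := by
      rw [← mul_smul_comm, ← ht, ← mul_assoc, mul_assoc (e s), h, ← mul_assoc, idem_et hs ho ht,
        smul_mul_assoc, smul_mul_assoc]
    rw [← sub_eq_zero, ← sub_smul] at h2
    exact (smul_eq_zero.1 h2).resolve_left (sub_ne_zero.2 fun h3 => hne (hi h3).symm)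
  have h2 : g * e s = e s * g * e s := by
    rw [← one_mul (g * e s), ← hs, Finset.sum_mul, Finset.sum_eq_single s
      (fun s' _ h => by rw [← mul_assoc, h1 _ _ h]) (by simp), mul_assoc]
  have h3 : e s * g = e s * g * e s := by
    conv_lhs => rw [← mul_one (e s * g), ← hs, Finset.mul_sum]
    exact Finset.sum_eq_single s (fun s' _ h => h1 _ _ h.symm) (by simp)
  rw [h2, ← h3]

omit [Fintype σ] in
theorem idem_pow {s : σ} (ht : t * e s = θ s • e s) (k : ℕ) : t ^ k * e s = θ s ^ k • e s := by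
  induction k with
  | zero => simp
  | succ k ih => rw [pow_succ, mul_assoc, ht, mul_smul_comm, ih, smul_smul, pow_succ']

omit [Fintype σ] in
theorem idem_aeval {s : σ} (ht : t * e s = θ s • e s) (p : K[X]) :
    aeval t p * e s = p.eval (θ s) • e s := by
  induction p using Polynomial.induction_on' with
  | add p q hp hq => rw [map_add, add_mul, hp, hq, eval_add, add_smul]
  | monomial k c =>
    rw [aeval_monomial, mul_assoc, idem_pow ht, eval_monomial, ← Algebra.smul_def, smul_smul]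

end idem

omit [Fintype σ] in
/-- The form of Bezout. -/
theorem exists_cas [DecidableEq σ] {f : ℤ[X]} (hf : Irreducible (f.map (Int.castRingHom ℚ)))
    {θ : σ → ℝ} (hi : Function.Injective θ) (hr : ∀ s, aeval (θ s) f = 0) :
    ∃ (N : ℕ) (c : Fin N → Fin N → ℤ) (d : σ → ℝ), (∀ s, d s ≠ 0) ∧ ∀ s s',
      ∑ k, ∑ l, (c k l : ℝ) * θ s ^ (k : ℕ) * θ s' ^ (l : ℕ) = if s = s' then d s else 0 := by
  obtain ⟨B, hB⟩ : (X - C X : ℤ[X][X]) ∣ f.map C - C f := dvd_iff_isRoot.2 (by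
    rw [IsRoot, eval_sub, eval_C, eval_map, eval₂_C_X, sub_self])
  let ev : ℝ → ℝ → ℤ[X][X] →+* ℝ := fun x y => eval₂RingHom (aeval x : ℤ[X] →ₐ[ℤ] ℝ).toRingHom y
  have e1 : ∀ x y (p : ℤ[X]), ev x y (p.map C) = aeval y p := fun x y p => by
    simp only [ev, coe_eval₂RingHom, eval₂_map, aeval_def]
    congr 1
    exact RingHom.ext_int _ _
  have e2 : ∀ x y (p : ℤ[X]), ev x y (C p) = aeval x p := fun x y p => by simp [ev]
  have e3 : ∀ x y, ev x y X = y := fun x y => by simp [ev]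
  obtain ⟨N, h1, h2⟩ : ∃ N, B.natDegree < N ∧ ∀ k, (B.coeff k).natDegree < N := by
    refine ⟨B.natDegree + ∑ k ∈ B.support, (B.coeff k).natDegree + 1, by omega, fun k => ?_⟩
    by_cases h : k ∈ B.support
    · have := Finset.single_le_sum (f := fun k => (B.coeff k).natDegree)
        (fun _ _ => Nat.zero_le _) h
      omega
    · rw [notMem_support_iff.1 h]
      simp
  have e4 : ∀ x y, ∑ k : Fin N, ∑ l : Fin N, (((B.coeff l).coeff k : ℤ) : ℝ) * x ^ (k : ℕ) *
      y ^ (l : ℕ) = ev x y B := fun x y => by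
    rw [Finset.sum_comm]
    simp only [ev, coe_eval₂RingHom]
    rw [eval₂_eq_sum_range' _ h1, Finset.sum_range]
    refine Finset.sum_congr rfl fun l _ => ?_
    rw [← Finset.sum_mul]
    congr 1
    change _ = aeval x (B.coeff l)
    rw [aeval_eq_sum_range' (h2 l), Finset.sum_range]
    simp
  refine ⟨N, fun k l => (B.coeff l).coeff k, fun s => aeval (θ s) (derivative f), fun s h => ?_,
    fun s s' => ?_⟩
  · refine hf.separable.aeval_derivative_ne_zero (x := θ s) ?_ ?_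
    · rw [← hr s]
      exact aeval_map_algebraMap ℚ (θ s) f
    · rw [derivative_map, ← h]
      exact aeval_map_algebraMap ℚ (θ s) _
  · rw [e4]
    split_ifs with h
    · subst h
      have h3 := congrArg (fun p => ev (θ s) (θ s) (derivative p)) hB
      simp only [derivative_C, sub_zero, derivative_mul, derivative_X, one_mul,
        map_add, map_mul, map_sub, e2, e3, aeval_X, sub_self, zero_mul, add_zero, derivative_map,
        e1] at h3
      exact h3.symm
    · have h3 := congrArg (ev (θ s) (θ s')) hB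
      rw [map_sub, map_mul, map_sub, e1, e2, e2, e3, hr, hr, aeval_X, sub_self] at h3
      exact (mul_eq_zero.1 h3.symm).resolve_left (sub_ne_zero.2 fun h4 => h (hi h4).symm)

variable {ι : Type} [Fintype ι] [DecidableEq ι]

variable (σ) in
/-- A quaternion algebra over a totally real field, with the real idempotents of the field. -/
structure Fr (a b : ZM ι) where
  /-- the trace of `a` -/
  t : ZM ι
  /-- the norm of `a` -/
  m : ℕ
  /-- the square of `b` -/
  β : ℤ[X]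
  /-- the equation of `t` -/
  f : ℤ[X]
  /-- the idempotents -/
  ep : σ → RM ι
  /-- the roots -/
  θ : σ → ℝ
  m0 : 0 < m
  n0 : ∀ s, 0 < aeval (θ s) β
  aa : a * (t - a) = (m : ℤ) • 1
  bb : b * b = aeval t β
  ba : b * a = (t - a) * b
  ta : t * a = a * t
  tb : t * b = b * t
  aJ : aᵀ * J ι ℤ = J ι ℤ * (t - a)
  bJ : bᵀ * J ι ℤ = J ι ℤ * b
  tJ : tᵀ * J ι ℤ = J ι ℤ * t
  sum : ∑ s, ep s = 1
  orth : ∀ s s', s ≠ s' → ep s * ep s' = 0
  te : ∀ s, zr t * ep s = θ s • ep s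
  inj : Function.Injective θ
  irr : Irreducible (f.map (Int.castRingHom ℚ))
  root : ∀ s, aeval (θ s) f = 0
  pos : ∀ s, θ s ^ 2 < 4 * m

omit [Fintype ι] in
theorem zr_J : zr (J ι ℤ) = J ι ℝ := Matrix.map_J ι (Int.castRingHom ℝ)

omit [Fintype ι] [DecidableEq ι] in
theorem zr_tr (g : ZM ι) : zr gᵀ = (zr g)ᵀ := rfl

theorem zr_pow (g : ZM ι) (k : ℕ) : zr (g ^ k) = zr g ^ k :=
  map_pow (Int.castRingHom ℝ).mapMatrix g k

theorem zr_aeval (g : ZM ι) (p : ℤ[X]) : zr (aeval g p) = aeval (zr g) p :=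
  (aeval_algHom_apply ((Int.castRingHom ℝ).mapMatrix : ZM ι →+* RM ι).toIntAlgHom g p).symm

theorem aeval_tr {t T : ZM ι} (h : t * T = T * tᵀ) (p : ℤ[X]) :
    aeval t p * T = T * (aeval t p)ᵀ := by
  induction p using Polynomial.induction_on with
  | C c =>
    rw [aeval_C, Algebra.algebraMap_eq_smul_one, transpose_smul, transpose_one, smul_mul_assoc,
      mul_smul_comm, one_mul, mul_one]
  | add p q hp hq => rw [map_add, add_mul, hp, hq, transpose_add, mul_add]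
  | monomial k c ih =>
    rw [pow_succ, ← mul_assoc, map_mul, aeval_X, mul_assoc, h, ← mul_assoc, ih, mul_assoc,
      ← transpose_mul]
    congr 2
    simpa only [aeval_X] using
      ((Commute.all X (C c * X ^ k)).map (aeval t : ℤ[X] →ₐ[ℤ] ZM ι)).eq

omit [Fintype ι] [DecidableEq ι] in
theorem cx_zr (g : ZM ι) : cx (zr g) = g.map (Int.cast : ℤ → ℂ) := by
  ext i j
  simp [cx, zr]

namespace Fr

variable {a b : ZM ι} (Φ : Fr σ a b)

theorem sq (s : σ) : Φ.ep s * Φ.ep s = Φ.ep s := idem_sq Φ.sum Φ.orth s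

theorem et (s : σ) : Φ.ep s * zr Φ.t = Φ.θ s • Φ.ep s := idem_et Φ.sum Φ.orth Φ.te s

theorem eb (s : σ) : Φ.ep s * zr (b * b) = aeval (Φ.θ s) Φ.β • Φ.ep s :=
  idem_et Φ.sum Φ.orth (θ := fun s => aeval (Φ.θ s) Φ.β) (fun s => by
    rw [Φ.bb, zr_aeval, ← aeval_map_algebraMap ℝ, idem_aeval (Φ.te s), eval_map_algebraMap]) s

theorem comm_t {K : Type} [Field K] [CharZero K] {g : Matrix (ι ⊕ ι) (ι ⊕ ι) K}
    (h : g * a.map (Int.cast : ℤ → K) = a.map (Int.cast : ℤ → K) * g) :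
    g * Φ.t.map (Int.cast : ℤ → K) = Φ.t.map (Int.cast : ℤ → K) * g := by
  let ρ : ZM ι →+* Matrix (ι ⊕ ι) (ι ⊕ ι) K := (Int.castRingHom K).mapMatrix
  change g * ρ a = ρ a * g at h
  change g * ρ Φ.t = ρ Φ.t * g
  have h1 : ρ a * ρ (Φ.t - a) = (Φ.m : K) • 1 := by
    rw [← map_mul, Φ.aa, map_zsmul, map_one, ← Int.cast_smul_eq_zsmul K, Int.cast_natCast]
  have h2 : ρ (Φ.t - a) * ρ a = (Φ.m : K) • 1 := by
    rw [← h1, ← map_mul, ← map_mul, sub_mul, mul_sub, Φ.ta]
  have h3 : (Φ.m : K) • (g * ρ (Φ.t - a)) = (Φ.m : K) • (ρ (Φ.t - a) * g) := by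
    calc _ = ρ (Φ.t - a) * (ρ a * g) * ρ (Φ.t - a) := by
          rw [← mul_assoc, h2, smul_mul_assoc, one_mul, smul_mul_assoc]
      _ = _ := by rw [← h, mul_assoc, mul_assoc, h1, mul_smul_comm, mul_one, mul_smul_comm]
  have h4 := smul_right_injective _ (Nat.cast_ne_zero.2 Φ.m0.ne') h3
  simp only [map_sub, mul_sub, sub_mul, h, sub_left_inj] at h4
  exact h4

theorem comm' {g : RM ι} (h : g * zr Φ.t = zr Φ.t * g) (s : σ) : g * Φ.ep s = Φ.ep s * g :=
  idem_comm Φ.sum Φ.orth Φ.inj Φ.te h s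

theorem comm {g : RM ι} (h : g * zr a = zr a * g) (s : σ) : g * Φ.ep s = Φ.ep s * g :=
  Φ.comm' (Φ.comm_t h) s

theorem sumC : ∑ s, cx (Φ.ep s) = 1 := by
  rw [← cx_one, ← Φ.sum]
  exact (map_sum Complex.ofRealHom.mapMatrix _ _).symm

theorem orthC (s s' : σ) (h : s ≠ s') : cx (Φ.ep s) * cx (Φ.ep s') = 0 := by
  rw [← cx_mul, Φ.orth s s' h]
  exact Matrix.map_zero _ Complex.ofReal_zero

theorem teC (s : σ) : cx (zr Φ.t) * cx (Φ.ep s) = (Φ.θ s : ℂ) • cx (Φ.ep s) := by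
  rw [← cx_mul, Φ.te]
  ext i j
  exact Complex.ofReal_mul _ _

theorem sqC (s : σ) : cx (Φ.ep s) * cx (Φ.ep s) = cx (Φ.ep s) := idem_sq Φ.sumC Φ.orthC s

theorem commC {g : MC ι} (h : g * cx (zr a) = cx (zr a) * g) (s : σ) :
    g * cx (Φ.ep s) = cx (Φ.ep s) * g := by
  rw [cx_zr] at h
  exact idem_comm Φ.sumC Φ.orthC (Complex.ofReal_injective.comp Φ.inj) Φ.teC
    (by rw [cx_zr]; exact Φ.comm_t h) s

theorem ep_mem (s : σ) : ∀ y ∈ ({zr a, zr b} : Set (RM ι)), Φ.ep s * y = y * Φ.ep s := by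
  rintro y (rfl | rfl)
  · exact (Φ.comm rfl s).symm
  · exact (Φ.comm' (by rw [← zr_mul, ← zr_mul, Φ.tb]) s).symm

theorem deg : Fintype.card σ ≤ Φ.f.natDegree := by
  classical
  have h0 : Φ.f.map (Int.castRingHom ℝ) ≠ 0 := fun h => Φ.irr.ne_zero (by
    rw [Polynomial.map_eq_zero_iff (RingHom.injective_int _)] at h ⊢
    exact h)
  rw [← natDegree_map_eq_of_injective (RingHom.injective_int (Int.castRingHom ℝ)),
    ← Finset.card_univ, ← Finset.card_image_of_injective _ Φ.inj]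
  refine card_le_degree_of_subset_roots fun x hx => ?_
  obtain ⟨s, -, rfl⟩ := Finset.mem_image.1 hx
  rw [mem_roots h0, IsRoot, eval_map, ← Φ.root s]
  rfl

theorem adj (s : σ) : (Φ.ep s)ᵀ * J ι ℝ = J ι ℝ * Φ.ep s := by
  have h0 : (zr Φ.t)ᵀ * J ι ℝ = J ι ℝ * zr Φ.t := by
    rw [← zr_J, ← zr_tr, ← zr_mul, Φ.tJ, zr_mul]
  have h1 : ∀ s s', s ≠ s' → (Φ.ep s)ᵀ * J ι ℝ * Φ.ep s' = 0 := fun s s' hne => by
    have h2 : Φ.θ s' • ((Φ.ep s)ᵀ * J ι ℝ * Φ.ep s') = Φ.θ s • ((Φ.ep s)ᵀ * J ι ℝ * Φ.ep s') := by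
      rw [← Matrix.mul_smul, ← Φ.te, ← Matrix.mul_assoc, Matrix.mul_assoc _ (J ι ℝ), ← h0,
        ← Matrix.mul_assoc, ← transpose_mul, Φ.te, transpose_smul, Matrix.smul_mul,
        Matrix.smul_mul]
    rw [← sub_eq_zero, ← sub_smul] at h2
    exact (smul_eq_zero.1 h2).resolve_left (sub_ne_zero.2 fun h3 => hne (Φ.inj h3).symm)
  have h2 : (Φ.ep s)ᵀ * J ι ℝ = (Φ.ep s)ᵀ * J ι ℝ * Φ.ep s := by
    conv_lhs => rw [← Matrix.mul_one (_ * _), ← Φ.sum, Matrix.mul_sum]
    exact Finset.sum_eq_single s (fun s' _ h => h1 _ _ h.symm) (by simp)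
  have h3 : J ι ℝ * Φ.ep s = (Φ.ep s)ᵀ * J ι ℝ * Φ.ep s := by
    conv_lhs => rw [← Matrix.one_mul (J ι ℝ), ← transpose_one, ← Φ.sum, transpose_sum,
      Matrix.sum_mul, Matrix.sum_mul]
    exact Finset.sum_eq_single s (fun s' _ h => h1 _ _ h) (by simp)
  rw [h3, ← h2]

/-- A rational matrix that is killed by one idempotent is zero. -/
theorem rat {β : Matrix (ι ⊕ ι) (ι ⊕ ι) ℚ} {s : σ} (h : Φ.ep s * β.map (Rat.cast : ℚ → ℝ) = 0) :
    β = 0 := by
  classical
  obtain ⟨φ, hφ⟩ : ∃ φ : ℝ →ₗ[ℚ] ℚ, φ 1 = 1 := Module.Projective.exists_dual_eq_one ℚ one_ne_zero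
  let ρ : Matrix (ι ⊕ ι) (ι ⊕ ι) ℚ →+* RM ι := (Rat.castHom ℝ).mapMatrix
  let T : Matrix (ι ⊕ ι) (ι ⊕ ι) ℚ := Φ.t.map (Int.cast : ℤ → ℚ)
  have hT : ρ T = zr Φ.t := by
    ext i j
    simp [ρ, T, zr]
  have hρ : Function.Injective ρ := Matrix.map_injective (Rat.castHom ℝ).injective
  have key : ∀ p : ℝ[X], (∀ s', s' ≠ s → p.eval (Φ.θ s') = 0) → aeval (zr Φ.t) p * ρ β = 0 :=
    fun p hp => by
      rw [← Matrix.one_mul (ρ β), ← Φ.sum, Matrix.sum_mul, Matrix.mul_sum]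
      refine Finset.sum_eq_zero fun s' _ => ?_
      rw [← Matrix.mul_assoc, idem_aeval (Φ.te s'), Matrix.smul_mul]
      by_cases h1 : s' = s
      · rw [h1]
        exact smul_eq_zero_of_right _ h
      · rw [hp s' h1, zero_smul]
  let g : ℝ[X] := ∏ s' ∈ Finset.univ.erase s, (X - C (Φ.θ s'))
  have g1 : g.Monic := monic_prod_X_sub_C _ _
  have g2 : g.natDegree < Φ.f.natDegree := by
    rw [natDegree_finsetProd_X_sub_C_eq_card, Finset.card_erase_of_mem (Finset.mem_univ s),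
      Finset.card_univ]
    have := Fintype.card_pos_iff.2 ⟨s⟩
    have := Φ.deg
    omega
  have g3 := key g fun s' h1 => by
    rw [eval_prod]
    exact Finset.prod_eq_zero (Finset.mem_erase.2 ⟨h1, Finset.mem_univ _⟩) (by simp)
  let p : ℚ[X] := ∑ k ∈ Finset.range (g.natDegree + 1), monomial k (φ (g.coeff k))
  have p1 : p.coeff g.natDegree = 1 := by
    simp [p, coeff_monomial, g1.coeff_natDegree, hφ]
  have p2 : p.natDegree ≤ g.natDegree := natDegree_sum_le_of_forall_le _ _ fun k hk =>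
    (natDegree_monomial_le _).trans (Nat.lt_succ_iff.1 (Finset.mem_range.1 hk))
  have p3 : aeval T p * β = 0 := by
    ext i j
    have h1 := congrArg φ (congrFun (congrFun g3 i) j)
    rw [aeval_eq_sum_range, Matrix.sum_mul, Matrix.sum_apply, map_sum, Matrix.zero_apply,
      map_zero] at h1
    rw [map_sum, Matrix.sum_mul, Matrix.sum_apply, Matrix.zero_apply, ← h1]
    refine Finset.sum_congr rfl fun k _ => ?_
    rw [aeval_monomial, ← Algebra.smul_def, Matrix.smul_mul, Matrix.smul_mul, ← hT, ← map_pow,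
      ← map_mul, Matrix.smul_apply, Matrix.smul_apply, smul_eq_mul, smul_eq_mul, mul_comm,
      mul_comm (g.coeff k), ← smul_eq_mul, ← map_smul]
    rfl
  have p4 : aeval T (Φ.f.map (Int.castRingHom ℚ)) * β = 0 := hρ (by
    have h1 := key (Φ.f.map (Int.castRingHom ℝ)) fun s' _ => by
      rw [eval_map, ← Φ.root s']
      rfl
    rw [map_zero, map_mul, ← h1]
    congr 1
    rw [show Int.castRingHom ℚ = algebraMap ℤ ℚ from rfl, show Int.castRingHom ℝ = algebraMap ℤ ℝ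
      from rfl, aeval_map_algebraMap, aeval_map_algebraMap, ← hT]
    exact (aeval_algHom_apply ρ.toIntAlgHom T Φ.f).symm)
  obtain ⟨u, v, huv⟩ := Φ.irr.coprime_iff_not_dvd.2 fun hd => by
    have h1 := natDegree_le_of_dvd hd (q := p) fun h0 => by simp [h0] at p1
    rw [natDegree_map_eq_of_injective (RingHom.injective_int _)] at h1
    omega
  rw [← Matrix.one_mul β, ← map_one (aeval T : ℚ[X] →ₐ[ℚ] _), ← huv, map_add, map_mul, map_mul,
    Matrix.add_mul, Matrix.mul_assoc, Matrix.mul_assoc, p3, p4]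
  simp

theorem ratZ {β : ZM ι} {s : σ} (h : Φ.ep s * zr β = 0) : β = 0 := by
  have h1 := Φ.rat (β := β.map (Int.cast : ℤ → ℚ)) (s := s) (by
    rw [← h]
    congr 1)
  ext i j
  exact Int.cast_eq_zero.1 (congrFun (congrFun h1 i) j)

end Fr

end MG.E3
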